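import Pool.Agent.H31.GS.Ineq

/-!
# Polynomial functions on a pro-`p` group and exponential growth

`P n` is the space of locally constant functions `f : G → F_p` with
`(g_1 - 1) ⋯ (g_n - 1) f = 0` for all `g_i` (right translations), the dual of
`F_p[[G]] / I^n`.  We prove `b (n + 2) + r b n ≥ d b (n + 1) + 1` for `b n = dim P n`, and
`b (n + 1) ≥ (n + 1) (d / 2) ^ n` if `4 r ≤ d ^ 2`.
-/

set_option autoImplicit false
set_option linter.unusedSectionVars false

namespace Pool.Agent.H31.GS

open Module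

variable {p : ℕ} [Fact p.Prime] {G : Type*} [Group G] [TopologicalSpace G]

/-- Right translation: `(rt g f) x = f (x * g)`. -/
def rt (p : ℕ) (G : Type*) [Group G] : Representation (ZMod p) G (G → ZMod p) where
  toFun g :=
    { toFun := fun f x => f (x * g)
      map_add' := fun a b => rfl
      map_smul' := fun c a => rfl }
  map_one' := by
    ext f x
    simp
  map_mul' g h := by
    ext f x
    simp [mul_assoc]

theorem rt_apply (g : G) (f : G → ZMod p) (x : G) : rt p G g f x = f (x * g) := rfl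

/-- Polynomial functions of degree `< n`. -/
def P (p : ℕ) (G : Type*) [Group G] [TopologicalSpace G] : ℕ → Submodule (ZMod p) (G → ZMod p)
  | 0 => ⊥
  | n + 1 =>
    { carrier := {f | IsLocallyConstant f ∧ ∀ g, rt p G g f - f ∈ P p G n}
      add_mem' := fun {a b} ha hb => ⟨ha.1.add hb.1, fun g => by
        have h : rt p G g (a + b) - (a + b) = (rt p G g a - a) + (rt p G g b - b) := by
          rw [map_add]; abel
        rw [h]
        exact (P p G n).add_mem (ha.2 g) (hb.2 g)⟩
      zero_mem' := ⟨IsLocallyConstant.const (0 : ZMod p), fun g => by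
        rw [map_zero, sub_zero]; exact (P p G n).zero_mem⟩
      smul_mem' := fun c x hx => ⟨hx.1.comp (fun m => c • m), fun g => by
        rw [map_smul, ← smul_sub]
        exact (P p G n).smul_mem c (hx.2 g)⟩ }

theorem P_zero : P p G 0 = ⊥ := rfl

theorem mem_P_succ {n : ℕ} {f : G → ZMod p} :
    f ∈ P p G (n + 1) ↔ IsLocallyConstant f ∧ ∀ g, rt p G g f - f ∈ P p G n := Iff.rfl

theorem P_LC {n : ℕ} {f : G → ZMod p} (hf : f ∈ P p G n) : IsLocallyConstant f := by
  cases n with
  | zero =>
    rw [P_zero, Submodule.mem_bot] at hf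
    subst hf
    exact IsLocallyConstant.const (0 : ZMod p)
  | succ n => exact hf.1

theorem P_mono_succ (n : ℕ) : P p G n ≤ P p G (n + 1) := by
  induction n with
  | zero => rw [P_zero]; exact bot_le
  | succ n ih =>
    intro f hf
    exact ⟨hf.1, fun g => ih (hf.2 g)⟩

theorem P_inv (n : ℕ) (g : G) {f : G → ZMod p} (hf : f ∈ P p G n) :
    rt p G g f ∈ P p G n := by
  cases n with
  | zero =>
    rw [P_zero, Submodule.mem_bot] at hf ⊢
    rw [hf, map_zero]
  | succ n =>
    have h1 : rt p G g f - f ∈ P p G (n + 1) := P_mono_succ n (hf.2 g)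
    have := (P p G (n + 1)).add_mem h1 hf
    simpa using this

/-- The action on polynomial functions. -/
def rtP (p : ℕ) [Fact p.Prime] (G : Type*) [Group G] [TopologicalSpace G] (n : ℕ) :
    Representation (ZMod p) G (P p G n) :=
  (rt p G).subrepresentation (P p G n) (fun g _ hf => P_inv n g hf)

theorem rtP_coe (n : ℕ) (g : G) (f : P p G n) : (rtP p G n g f : G → ZMod p) = rt p G g f.1 :=
  rfl

theorem rt_eventually [IsTopologicalGroup G] [CompactSpace G] {f : G → ZMod p}
    (hf : IsLocallyConstant f) (g₀ : G) : ∀ᶠ g in nhds g₀, rt p G g f = rt p G g₀ f := by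
  have h1 : ∀ᶠ g in nhds g₀, ∀ x ∈ (Set.univ : Set G), f (x * g) = f (x * g₀) := by
    refine IsCompact.eventually_forall_of_forall_eventually isCompact_univ ?_
    intro x _
    have h2 : IsLocallyConstant (fun z : G × G => f (z.2 * z.1)) :=
      hf.comp_continuous (continuous_snd.mul continuous_fst)
    have h3 : IsLocallyConstant (fun z : G × G => f (z.2 * g₀)) :=
      hf.comp_continuous (continuous_snd.mul continuous_const)
    filter_upwards [h2.eventually_eq (g₀, x), h3.eventually_eq (g₀, x)] with z hz hz'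
    rw [hz, hz']
  filter_upwards [h1] with g hg
  funext x
  exact hg x (Set.mem_univ x)

/-- The cocycle of a polynomial function. -/
def toCoc [IsTopologicalGroup G] [CompactSpace G] (p : ℕ) [Fact p.Prime] (n : ℕ) :
    P p G (n + 1) →ₗ[ZMod p] Z1 (rtP p G n) where
  toFun f := ⟨fun g => ⟨rt p G g f.1 - f.1, f.2.2 g⟩, by
    refine ⟨?_, fun g h => ?_⟩
    · rw [IsLocallyConstant.iff_eventually_eq]
      intro g₀
      filter_upwards [rt_eventually f.2.1 g₀] with g hg
      ext1
      change rt p G g f.1 - f.1 = rt p G g₀ f.1 - f.1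
      rw [hg]
    · ext1
      change rt p G (g * h) f.1 - f.1 = (rt p G g f.1 - f.1) + rt p G g (rt p G h f.1 - f.1)
      rw [map_sub, map_mul]
      change rt p G g (rt p G h f.1) - f.1 = _
      abel⟩
  map_add' a b := by
    ext g x
    change (rt p G g (a.1 + b.1) - (a.1 + b.1)) x =
      ((rt p G g a.1 - a.1) + (rt p G g b.1 - b.1)) x
    rw [map_add, add_sub_add_comm]
  map_smul' c a := by
    ext g x
    change (rt p G g (c • a.1) - (c • a.1)) x = (c • (rt p G g a.1 - a.1)) x
    rw [map_smul, smul_sub]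

theorem toCoc_apply [IsTopologicalGroup G] [CompactSpace G] (n : ℕ) (f : P p G (n + 1))
    (g x : G) : ((toCoc p n f).1 g).1 x = f.1 (x * g) - f.1 x := rfl

theorem toCoc_surjective [IsTopologicalGroup G] [CompactSpace G] (n : ℕ) :
    Function.Surjective (toCoc (G := G) p n) := by
  intro c
  have key : ∀ g, rt p G g (fun x => (c.1 x).1 1) - (fun x => (c.1 x).1 1) = (c.1 g).1 := by
    intro g
    funext x
    change (c.1 (x * g)).1 1 - (c.1 x).1 1 = (c.1 g).1 x
    rw [c.2.2 x g]
    change (c.1 x).1 1 + (c.1 g).1 (1 * x) - (c.1 x).1 1 = (c.1 g).1 x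
    rw [one_mul]
    ring
  refine ⟨⟨fun x => (c.1 x).1 1, ?_, fun g => ?_⟩, ?_⟩
  · exact c.2.1.comp (fun m => m.1 1)
  · rw [key g]
    exact (c.1 g).2
  · ext g x
    exact congrFun (key g) x

/-- The constant function `1`. -/
def onep (p : ℕ) (G : Type*) [Group G] [TopologicalSpace G] (n : ℕ) : P p G (n + 1) :=
  ⟨fun _ => 1, IsLocallyConstant.const (1 : ZMod p), fun g => by
    have : rt p G g (fun _ => (1 : ZMod p)) - (fun _ => (1 : ZMod p)) = 0 := by
      funext x
      change (1 : ZMod p) - 1 = 0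
      exact sub_self 1
    rw [this]
    exact (P p G n).zero_mem⟩

theorem ker_toCoc [IsTopologicalGroup G] [CompactSpace G] (n : ℕ) :
    LinearMap.ker (toCoc (G := G) p n) = Submodule.span (ZMod p) {onep p G n} := by
  ext f
  rw [LinearMap.mem_ker, Submodule.mem_span_singleton]
  constructor
  · intro h
    refine ⟨f.1 1, ?_⟩
    ext x
    have h1 := congrArg (fun c : Z1 (rtP p G n) => (c.1 x).1 1) h
    have h2 : f.1 (1 * x) - f.1 1 = 0 := h1
    change f.1 1 • (1 : ZMod p) = f.1 x
    rw [one_mul, sub_eq_zero] at h2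
    rw [h2, smul_eq_mul, mul_one]
  · rintro ⟨a, rfl⟩
    ext g x
    rw [toCoc_apply]
    change a • (1 : ZMod p) - a • (1 : ZMod p) = 0
    rw [sub_self]

theorem onep_ne (n : ℕ) : onep p G n ≠ 0 := by
  intro h
  have h1 := congrArg (fun c : P p G (n + 1) => c.1 1) h
  exact one_ne_zero (α := ZMod p) h1

theorem smooth_rtP [IsTopologicalGroup G] [CompactSpace G] (n : ℕ)
    [Module.Finite (ZMod p) (P p G n)] : IsLocallyConstant (fun g => rtP p G n g) := by
  have hfin : Finite (P p G n) := Module.finite_of_finite (ZMod p)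
  rw [IsLocallyConstant.iff_eventually_eq]
  intro g₀
  have h1 : ∀ᶠ g in nhds g₀, ∀ f : P p G n, rt p G g f.1 = rt p G g₀ f.1 :=
    Filter.eventually_all.2 fun f => rt_eventually (P_LC f.2) g₀
  filter_upwards [h1] with g hg
  ext f x
  exact congrFun (hg f) x

variable [IsTopologicalGroup G] [CompactSpace G]

/-- Finite dimensionality and the recursion. -/
theorem P_finite (hG : PIndex p G)
    [Module.Finite (ZMod p) (Z1 (triv p G))] [Module.Finite (ZMod p) (H2 (triv p G))] (n : ℕ) :
    Module.Finite (ZMod p) (P p G n) := by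
  induction n with
  | zero =>
    rw [P_zero]; infer_instance
  | succ n ih =>
    obtain ⟨f1, -, -⟩ := euler hG _ (rtP p G n) (smooth_rtP n) rfl
    have hk : Module.Finite (ZMod p) (LinearMap.ker (toCoc (G := G) p n)) := by
      rw [ker_toCoc]; infer_instance
    have hq : Module.Finite (ZMod p) (P p G (n + 1) ⧸ LinearMap.ker (toCoc (G := G) p n)) :=
      Module.Finite.equiv ((toCoc (G := G) p n).quotKerEquivRange).symm
    exact Module.Finite.of_submodule_quotient (LinearMap.ker (toCoc (G := G) p n))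

theorem P_succ_dim (n : ℕ) [Module.Finite (ZMod p) (P p G (n + 1))] :
    finrank (ZMod p) (P p G (n + 1)) = finrank (ZMod p) (Z1 (rtP p G n)) + 1 := by
  have h1 := (toCoc (G := G) p n).finrank_range_add_finrank_ker
  rw [ker_toCoc, finrank_span_singleton (onep_ne n),
    LinearMap.range_eq_top.2 (toCoc_surjective n), finrank_top] at h1
  exact h1.symm

/-- The Golod-Shafarevich recursion. -/
theorem gs_rec (hG : PIndex p G)
    [Module.Finite (ZMod p) (Z1 (triv p G))] [Module.Finite (ZMod p) (H2 (triv p G))] (n : ℕ) :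
    finrank (ZMod p) (Z1 (triv p G)) * finrank (ZMod p) (P p G (n + 1)) + 1 ≤
      finrank (ZMod p) (P p G (n + 2)) +
        finrank (ZMod p) (H2 (triv p G)) * finrank (ZMod p) (P p G n) := by
  have h1 := P_finite hG (n + 1)
  have h2 := P_finite hG (n + 2)
  let W : Submodule (ZMod p) (P p G (n + 1)) := (P p G n).comap (P p G (n + 1)).subtype
  have hW : finrank (ZMod p) W = finrank (ZMod p) (P p G n) :=
    (Submodule.comapSubtypeEquivOfLe (P_mono_succ n)).finrank_eq
  obtain ⟨-, h3⟩ := gs_module hG (rtP p G (n + 1)) (smooth_rtP (n + 1)) W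
    (fun g m => m.2.2 g)
  rw [P_succ_dim (n + 1)]
  rw [hW] at h3
  omega

/-- Exponential growth if `4 r ≤ d ^ 2`. -/
theorem gs_growth (hG : PIndex p G)
    [Module.Finite (ZMod p) (Z1 (triv p G))] [Module.Finite (ZMod p) (H2 (triv p G))]
    (hr : 4 * finrank (ZMod p) (H2 (triv p G)) ≤ finrank (ZMod p) (Z1 (triv p G)) ^ 2) (n : ℕ) :
    ((n : ℝ) + 1) * ((finrank (ZMod p) (Z1 (triv p G)) : ℝ) / 2) ^ n ≤
      finrank (ZMod p) (P p G (n + 1)) := by
  set d : ℕ := finrank (ZMod p) (Z1 (triv p G)) with hd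
  set r : ℕ := finrank (ZMod p) (H2 (triv p G)) with hrr
  set b : ℕ → ℕ := fun n => finrank (ZMod p) (P p G n) with hb
  have h0 : b 0 = 0 := by
    simp only [hb, P_zero]
    exact finrank_bot _ _
  have h1 : 1 ≤ b 1 := by
    have h2 := P_finite hG 1
    have h3 : b 1 = finrank (ZMod p) (Z1 (rtP p G 0)) + 1 := P_succ_dim 0
    omega
  have hrec : ∀ n, (d : ℝ) * b (n + 1) + 1 ≤ b (n + 2) + r * b n := by
    intro n
    exact_mod_cast gs_rec hG n
  have hr' : (r : ℝ) ≤ ((d : ℝ) / 2) ^ 2 := by
    have : (4 : ℝ) * r ≤ (d : ℝ) ^ 2 := by exact_mod_cast hr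
    nlinarith
  have hc : ∀ n, ((d : ℝ) / 2) ^ n ≤ b (n + 1) - (d : ℝ) / 2 * b n := by
    intro n
    induction n with
    | zero =>
      rw [h0]
      simpa using h1
    | succ n ih =>
      have h3 := hrec n
      have h4 : (r : ℝ) * b n ≤ ((d : ℝ) / 2) ^ 2 * b n :=
        mul_le_mul_of_nonneg_right hr' (Nat.cast_nonneg _)
      have h5 : (d : ℝ) / 2 * ((d : ℝ) / 2) ^ n ≤
          (d : ℝ) / 2 * (b (n + 1) - (d : ℝ) / 2 * b n) :=
        mul_le_mul_of_nonneg_left ih (by positivity)
      rw [pow_succ]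
      nlinarith
  change ((n : ℝ) + 1) * ((d : ℝ) / 2) ^ n ≤ b (n + 1)
  induction n with
  | zero =>
    simpa using h1
  | succ n ih =>
    have h3 := hc (n + 1)
    have h4 : (d : ℝ) / 2 * (((n : ℝ) + 1) * ((d : ℝ) / 2) ^ n) ≤ (d : ℝ) / 2 * b (n + 1) :=
      mul_le_mul_of_nonneg_left ih (by positivity)
    have h5 : (((n + 1 : ℕ) : ℝ) + 1) * ((d : ℝ) / 2) ^ (n + 1) =
        (d : ℝ) / 2 * (((n : ℝ) + 1) * ((d : ℝ) / 2) ^ n) + ((d : ℝ) / 2) ^ (n + 1) := by
      push_cast
      ring
    rw [h5]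
    linarith

end Pool.Agent.H31.GS
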