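import Pool.Agent.H31.GS.Free

/-!
# The Baire category step
-/

set_option autoImplicit false

namespace Pool.Agent.H31.GS

open Topology

variable {G : Type*} [Group G] [TopologicalSpace G] [IsTopologicalGroup G] [CompactSpace G]
  [TotallyDisconnectedSpace G]

/-- If no pair of elements satisfies the criterion for freeness with respect to the filtration
`D` of the free group, then a whole open set of pairs fails it at the same level. -/
theorem baire_step (D : ℕ → Subgroup (FreeGroup Bool))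
    (h : ∀ x y : G, ¬ ∀ n, ∃ N : OpenNormalSubgroup G, ∀ w, evw x y w ∈ N → w ∈ D n) :
    ∃ (n : ℕ) (x₀ y₀ : G) (U : OpenNormalSubgroup G), ∀ x y, x₀⁻¹ * x ∈ U → y₀⁻¹ * y ∈ U →
      ∀ N : OpenNormalSubgroup G, ∃ w, evw x y w ∈ N ∧ w ∉ D n := by
  classical
  let E : ℕ → Set (G × G) := fun n => {z | ∀ N : OpenNormalSubgroup G,
    ∃ w, evw z.1 z.2 w ∈ N ∧ w ∉ D n}
  have hclosed : ∀ n, IsClosed (E n) := by
    intro n
    have h1 : E n = ⋂ N : OpenNormalSubgroup G, {z | ∃ w, evw z.1 z.2 w ∈ N ∧ w ∉ D n} := by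
      ext z
      simp only [E, Set.mem_ofPred_eq, Set.mem_iInter]
    rw [h1]
    refine isClosed_iInter fun N => ?_
    -- the complement is open: the condition only depends on the cosets
    rw [← isOpen_compl_iff, isOpen_iff_mem_nhds]
    rintro ⟨x, y⟩ hz
    have hN1 : {g : G | x⁻¹ * g ∈ N} ∈ 𝓝 x := by
      have ho : IsOpen {g : G | x⁻¹ * g ∈ N} := N.isOpen'.preimage (continuous_const_mul _)
      apply ho.mem_nhds
      change x⁻¹ * x ∈ N
      rw [inv_mul_cancel]
      exact N.one_mem'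
    have hN2 : {g : G | y⁻¹ * g ∈ N} ∈ 𝓝 y := by
      have ho : IsOpen {g : G | y⁻¹ * g ∈ N} := N.isOpen'.preimage (continuous_const_mul _)
      apply ho.mem_nhds
      change y⁻¹ * y ∈ N
      rw [inv_mul_cancel]
      exact N.one_mem'
    refine Filter.mem_of_superset (prod_mem_nhds hN1 hN2) ?_
    rintro ⟨x', y'⟩ ⟨hx', hy'⟩ ⟨w, hw1, hw2⟩
    apply hz
    refine ⟨w, ?_, hw2⟩
    have key : ∀ w : FreeGroup Bool, (evw x y w : G ⧸ N.toSubgroup) = evw x' y' w := by
      intro w
      have h2 : (QuotientGroup.mk' N.toSubgroup).comp (evw x y) =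
          (QuotientGroup.mk' N.toSubgroup).comp (evw x' y') := by
        apply FreeGroup.ext_hom
        intro b
        cases b
        · simp only [MonoidHom.comp_apply, evw, FreeGroup.lift_apply_of, Bool.false_eq_true,
            if_false]
          exact QuotientGroup.eq.2 hy'
        · simp only [MonoidHom.comp_apply, evw, FreeGroup.lift_apply_of, if_true]
          exact QuotientGroup.eq.2 hx'
      exact DFunLike.congr_fun h2 w
    have h3 := key w
    have h4 : (evw x' y' w : G ⧸ N.toSubgroup) = 1 := (QuotientGroup.eq_one_iff _).2 hw1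
    rw [h4] at h3
    exact (QuotientGroup.eq_one_iff _).1 h3
  have hcover : (⋃ n, E n) = Set.univ := by
    rw [Set.eq_univ_iff_forall]
    rintro ⟨x, y⟩
    have h1 := h x y
    push Not at h1
    obtain ⟨n, hn⟩ := h1
    exact Set.mem_iUnion.2 ⟨n, hn⟩
  obtain ⟨n, ⟨x₀, y₀⟩, hz⟩ := nonempty_interior_of_iUnion_of_closed hclosed hcover
  rw [mem_interior_iff_mem_nhds, nhds_prod_eq, Filter.mem_prod_iff] at hz
  obtain ⟨A, hA, B, hB, hAB⟩ := hz
  have hA' : {g : G | x₀ * g ∈ A} ∈ 𝓝 (1 : G) := by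
    have : Filter.Tendsto (fun g : G => x₀ * g) (𝓝 1) (𝓝 (x₀ * 1)) :=
      (continuous_const_mul x₀).tendsto 1
    rw [mul_one] at this
    exact this hA
  have hB' : {g : G | y₀ * g ∈ B} ∈ 𝓝 (1 : G) := by
    have : Filter.Tendsto (fun g : G => y₀ * g) (𝓝 1) (𝓝 (y₀ * 1)) :=
      (continuous_const_mul y₀).tendsto 1
    rw [mul_one] at this
    exact this hB
  obtain ⟨V, hV, hVo, h1V⟩ := mem_nhds_iff.1 (Filter.inter_mem hA' hB')
  obtain ⟨U, hU⟩ := ProfiniteGrp.exist_openNormalSubgroup_sub_open_nhds_of_one hVo h1V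
  refine ⟨n, x₀, y₀, U, fun x y hx hy => ?_⟩
  have h1 := (hV (hU hx)).1
  have h2 := (hV (hU hy)).2
  change x₀ * (x₀⁻¹ * x) ∈ A at h1
  change y₀ * (y₀⁻¹ * y) ∈ B at h2
  rw [mul_inv_cancel_left] at h1 h2
  exact hAB (Set.mk_mem_prod h1 h2)

end Pool.Agent.H31.GS
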