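import Mathlib

/-!
# Low degree continuous cohomology of a topological group with coefficients in a discrete
`ZMod p`-module, by explicit locally constant cocycles, and the exact sequence

`0 → Z¹(A) → Z¹(B) → Z¹(C) → H²(A) → H²(B) → H²(C)` of a short exact sequence
`0 → A → B → C → 0` of discrete modules.
-/

set_option autoImplicit false
set_option linter.unusedSectionVars false

namespace Pool.Agent.H31.GS

open Module

section defs

variable {p : ℕ} {G : Type*} [Group G] [TopologicalSpace G]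
variable {M : Type*} [AddCommGroup M] [Module (ZMod p) M]

/-- Locally constant functions `X → M`, as a submodule of all functions. -/
def LC (p : ℕ) (X M : Type*) [TopologicalSpace X] [AddCommGroup M] [Module (ZMod p) M] :
    Submodule (ZMod p) (X → M) where
  carrier := {f | IsLocallyConstant f}
  add_mem' := fun {a b} (ha : IsLocallyConstant a) (hb : IsLocallyConstant b) =>
    show IsLocallyConstant (a + b) from ha.add hb
  zero_mem' := IsLocallyConstant.const (0 : M)
  smul_mem' := fun c x (hx : IsLocallyConstant x) => hx.comp (fun m => c • m)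

theorem mem_LC {X : Type*} [TopologicalSpace X] {f : X → M} :
    f ∈ LC p X M ↔ IsLocallyConstant f := Iff.rfl

/-- Continuous 1-cocycles: locally constant `f : G → M` with `f (g h) = f g + g (f h)`. -/
def Z1 (ρ : Representation (ZMod p) G M) : Submodule (ZMod p) (G → M) where
  carrier := {f | IsLocallyConstant f ∧ ∀ g h, f (g * h) = f g + ρ g (f h)}
  add_mem' := fun {a b} ha hb => ⟨ha.1.add hb.1, fun g h => by
    simp only [Pi.add_apply, ha.2 g h, hb.2 g h, map_add]; abel⟩
  zero_mem' := ⟨IsLocallyConstant.const (0 : M), fun g h => by simp⟩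
  smul_mem' := fun c x hx => ⟨hx.1.comp (fun m => c • m), fun g h => by
    simp only [Pi.smul_apply, hx.2 g h, map_smul, smul_add]⟩

theorem mem_Z1 {ρ : Representation (ZMod p) G M} {f : G → M} :
    f ∈ Z1 ρ ↔ IsLocallyConstant f ∧ ∀ g h, f (g * h) = f g + ρ g (f h) := Iff.rfl

/-- The coboundary map `C¹ → C²`. -/
def d1 (ρ : Representation (ZMod p) G M) : (G → M) →ₗ[ZMod p] (G × G → M) where
  toFun f := fun x => ρ x.1 (f x.2) - f (x.1 * x.2) + f x.1
  map_add' a b := by
    funext x
    simp only [Pi.add_apply, map_add]; abel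
  map_smul' c a := by
    funext x
    simp only [Pi.smul_apply, map_smul, RingHom.id_apply, smul_add, smul_sub]

theorem d1_apply (ρ : Representation (ZMod p) G M) (f : G → M) (g h : G) :
    d1 ρ f (g, h) = ρ g (f h) - f (g * h) + f g := rfl

/-- Continuous 2-cocycles. -/
def Z2 (ρ : Representation (ZMod p) G M) : Submodule (ZMod p) (G × G → M) where
  carrier := {f | IsLocallyConstant f ∧
    ∀ g h k, ρ g (f (h, k)) - f (g * h, k) + f (g, h * k) - f (g, h) = 0}
  add_mem' := fun {a b} ha hb => ⟨ha.1.add hb.1, fun g h k => by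
    have h1 := ha.2 g h k
    have h2 := hb.2 g h k
    simp only [Pi.add_apply, map_add]
    calc _ = (ρ g (a (h, k)) - a (g * h, k) + a (g, h * k) - a (g, h)) +
        (ρ g (b (h, k)) - b (g * h, k) + b (g, h * k) - b (g, h)) := by abel
      _ = 0 := by rw [h1, h2, add_zero]⟩
  zero_mem' := ⟨IsLocallyConstant.const (0 : M), fun g h k => by simp⟩
  smul_mem' := fun c x hx => ⟨hx.1.comp (fun m => c • m), fun g h k => by
    have h1 := hx.2 g h k
    simp only [Pi.smul_apply, map_smul, ← smul_sub, ← smul_add, h1, smul_zero]⟩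

theorem mem_Z2 {ρ : Representation (ZMod p) G M} {f : G × G → M} :
    f ∈ Z2 ρ ↔ IsLocallyConstant f ∧
      ∀ g h k, ρ g (f (h, k)) - f (g * h, k) + f (g, h * k) - f (g, h) = 0 := Iff.rfl

/-- Continuous 2-coboundaries: coboundaries of locally constant 1-cochains. -/
def B2 (ρ : Representation (ZMod p) G M) : Submodule (ZMod p) (G × G → M) :=
  (LC p G M).map (d1 ρ)

theorem mem_B2 {ρ : Representation (ZMod p) G M} {f : G × G → M} :
    f ∈ B2 ρ ↔ ∃ a : G → M, IsLocallyConstant a ∧ d1 ρ a = f := Iff.rfl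

/-- The second continuous cohomology group `H²(G, M) = Z² / B²`. -/
abbrev H2 (ρ : Representation (ZMod p) G M) : Type _ :=
  (Z2 ρ) ⧸ ((B2 ρ).comap (Z2 ρ).subtype)

theorem d1_cocycle (ρ : Representation (ZMod p) G M) (f : G → M) (g h k : G) :
    ρ g (d1 ρ f (h, k)) - d1 ρ f (g * h, k) + d1 ρ f (g, h * k) - d1 ρ f (g, h) = 0 := by
  simp only [d1_apply, map_add, map_sub, map_mul, Module.End.mul_apply, mul_assoc]
  abel

theorem isLC_act [IsTopologicalGroup G] {ρ : Representation (ZMod p) G M}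
    (hρ : IsLocallyConstant (fun g => ρ g)) {f : G → M} (hf : IsLocallyConstant f) :
    IsLocallyConstant (d1 ρ f) := by
  have h1 : IsLocallyConstant (fun x : G × G => ρ x.1 (f x.2)) :=
    (hρ.comp_continuous continuous_fst).comp₂ (hf.comp_continuous continuous_snd)
      (fun a m => a m)
  have h2 : IsLocallyConstant (fun x : G × G => f (x.1 * x.2)) :=
    hf.comp_continuous continuous_mul
  have h3 : IsLocallyConstant (fun x : G × G => f x.1) := hf.comp_continuous continuous_fst
  exact (h1.sub h2).add h3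

end defs

section functoriality

variable {p : ℕ} {G : Type*} [Group G] [TopologicalSpace G]
variable {M N : Type*} [AddCommGroup M] [Module (ZMod p) M] [AddCommGroup N]
  [Module (ZMod p) N] {ρ : Representation (ZMod p) G M} {σ : Representation (ZMod p) G N}

/-- Functoriality of `Z¹`. -/
def Z1map (φ : M →ₗ[ZMod p] N) (hφ : ∀ g m, φ (ρ g m) = σ g (φ m)) :
    Z1 ρ →ₗ[ZMod p] Z1 σ where
  toFun f := ⟨fun g => φ (f.1 g), f.2.1.comp φ, fun g h => by
    change φ (f.1 (g * h)) = φ (f.1 g) + σ g (φ (f.1 h))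
    rw [f.2.2 g h, map_add, hφ]⟩
  map_add' a b := by ext g; simp
  map_smul' c a := by ext g; simp

theorem Z1map_apply (φ : M →ₗ[ZMod p] N) (hφ : ∀ g m, φ (ρ g m) = σ g (φ m)) (f : Z1 ρ)
    (g : G) : (Z1map φ hφ f).1 g = φ (f.1 g) := rfl

/-- Functoriality of `Z²`. -/
def Z2map (φ : M →ₗ[ZMod p] N) (hφ : ∀ g m, φ (ρ g m) = σ g (φ m)) :
    Z2 ρ →ₗ[ZMod p] Z2 σ where
  toFun f := ⟨fun x => φ (f.1 x), f.2.1.comp φ, fun g h k => by
    rw [← hφ, ← map_sub, ← map_add, ← map_sub, f.2.2 g h k, map_zero]⟩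
  map_add' a b := by ext g; simp
  map_smul' c a := by ext g; simp

theorem Z2map_apply (φ : M →ₗ[ZMod p] N) (hφ : ∀ g m, φ (ρ g m) = σ g (φ m)) (f : Z2 ρ)
    (x : G × G) : (Z2map φ hφ f).1 x = φ (f.1 x) := rfl

theorem d1_map (φ : M →ₗ[ZMod p] N) (hφ : ∀ g m, φ (ρ g m) = σ g (φ m)) (a : G → M)
    (x : G × G) : φ (d1 ρ a x) = d1 σ (fun g => φ (a g)) x := by
  obtain ⟨g, h⟩ := x
  simp only [d1_apply, map_add, map_sub, hφ]

/-- Functoriality of `H²`. -/
def H2map (φ : M →ₗ[ZMod p] N) (hφ : ∀ g m, φ (ρ g m) = σ g (φ m)) :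
    H2 ρ →ₗ[ZMod p] H2 σ :=
  Submodule.mapQ _ _ (Z2map φ hφ) (by
    rintro f ⟨a, ha, haf⟩
    refine ⟨fun g => φ (a g), IsLocallyConstant.comp ha φ, ?_⟩
    funext x
    rw [← d1_map φ hφ a x]
    have : d1 ρ a = f.1 := haf
    rw [this]
    rfl)

theorem H2map_mk (φ : M →ₗ[ZMod p] N) (hφ : ∀ g m, φ (ρ g m) = σ g (φ m)) (f : Z2 ρ) :
    H2map φ hφ (Submodule.Quotient.mk f) = Submodule.Quotient.mk (Z2map φ hφ f) := rfl

theorem H2_mk_eq_zero (f : Z2 ρ) :
    (Submodule.Quotient.mk f : H2 ρ) = 0 ↔ ∃ a : G → M, IsLocallyConstant a ∧ d1 ρ a = f.1 := by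
  rw [Submodule.Quotient.mk_eq_zero]
  rfl

theorem H2_mk_eq (f f' : Z2 ρ) :
    (Submodule.Quotient.mk f : H2 ρ) = Submodule.Quotient.mk f' ↔
      ∃ a : G → M, IsLocallyConstant a ∧ d1 ρ a = f.1 - f'.1 := by
  rw [Submodule.Quotient.eq]
  rfl

end functoriality

section les

variable {p : ℕ} [Fact p.Prime] {G : Type*} [Group G] [TopologicalSpace G]
  [IsTopologicalGroup G]
variable {A B C : Type*} [AddCommGroup A] [Module (ZMod p) A] [AddCommGroup B]
  [Module (ZMod p) B] [AddCommGroup C] [Module (ZMod p) C]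
  {ρA : Representation (ZMod p) G A} {ρB : Representation (ZMod p) G B}
  {ρC : Representation (ZMod p) G C}

/-- The exact sequence `0 → Z¹(A) → Z¹(B) → Z¹(C) → H²(A) → H²(B) → H²(C)`, in terms of
dimensions. -/
theorem les (hρ : IsLocallyConstant (fun g => ρB g))
    (i : A →ₗ[ZMod p] B) (π : B →ₗ[ZMod p] C) (hi : Function.Injective i)
    (hπ : Function.Surjective π) (hex : LinearMap.ker π = LinearMap.range i)
    (hiG : ∀ g a, i (ρA g a) = ρB g (i a)) (hπG : ∀ g b, π (ρB g b) = ρC g (π b))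
    [Module.Finite (ZMod p) (Z1 ρA)] [Module.Finite (ZMod p) (Z1 ρC)]
    [Module.Finite (ZMod p) (H2 ρA)] [Module.Finite (ZMod p) (H2 ρC)] :
    Module.Finite (ZMod p) (Z1 ρB) ∧ Module.Finite (ZMod p) (H2 ρB) ∧
    ∃ k : ℕ, k ≤ finrank (ZMod p) (H2 ρA) ∧
      finrank (ZMod p) (Z1 ρB) + k = finrank (ZMod p) (Z1 ρA) + finrank (ZMod p) (Z1 ρC) ∧
      finrank (ZMod p) (H2 ρB) + k ≤ finrank (ZMod p) (H2 ρA) + finrank (ZMod p) (H2 ρC) := by
  classical
  obtain ⟨s, hs⟩ := π.exists_rightInverse_of_surjective (LinearMap.range_eq_top.2 hπ)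
  obtain ⟨t, ht⟩ := i.exists_leftInverse_of_injective (LinearMap.ker_eq_bot.2 hi)
  have hs' : ∀ c, π (s c) = c := fun c => by
    have := LinearMap.congr_fun hs c
    simpa using this
  have ht' : ∀ a, t (i a) = a := fun a => by
    have := LinearMap.congr_fun ht a
    simpa using this
  have hit : ∀ b, π b = 0 → i (t b) = b := by
    intro b hb
    have hb' : b ∈ LinearMap.range i := by
      rw [← hex]; exact hb
    obtain ⟨a, rfl⟩ := hb'
    rw [ht']
  have hπi : ∀ a, π (i a) = 0 := by
    intro a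
    have : i a ∈ LinearMap.ker π := by
      rw [hex]; exact ⟨a, rfl⟩
    exact this
  -- the connecting map
  have hδπ : ∀ (c : Z1 ρC) (x : G × G), π (d1 ρB (fun g => s (c.1 g)) x) = 0 := by
    rintro c ⟨g, h⟩
    rw [d1_map π hπG, d1_apply]
    simp only [hs']
    rw [c.2.2 g h]
    abel
  have hδi : ∀ (c : Z1 ρC) (x : G × G), i (t (d1 ρB (fun g => s (c.1 g)) x)) =
      d1 ρB (fun g => s (c.1 g)) x := fun c x => hit _ (hδπ c x)
  have hsLC : ∀ (c : Z1 ρC), IsLocallyConstant (fun g => s (c.1 g)) := fun c => c.2.1.comp s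
  let δ : Z1 ρC →ₗ[ZMod p] Z2 ρA :=
    { toFun := fun c => ⟨fun x => t (d1 ρB (fun g => s (c.1 g)) x),
        (isLC_act hρ (hsLC c)).comp t, fun g h k => by
          apply hi
          rw [map_sub, map_add, map_sub, hiG, hδi, hδi, hδi, hδi, map_zero]
          exact d1_cocycle ρB _ g h k⟩
      map_add' := fun a b => by
        ext x
        have : (fun g => s ((a + b).1 g)) = (fun g => s (a.1 g)) + (fun g => s (b.1 g)) := by
          funext g; simp
        change t (d1 ρB (fun g => s ((a + b).1 g)) x) =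
          t (d1 ρB (fun g => s (a.1 g)) x) + t (d1 ρB (fun g => s (b.1 g)) x)
        rw [this, map_add, Pi.add_apply, map_add]
      map_smul' := fun c a => by
        ext x
        have : (fun g => s ((c • a).1 g)) = c • (fun g => s (a.1 g)) := by
          funext g; simp
        change t (d1 ρB (fun g => s ((c • a).1 g)) x) = c • t (d1 ρB (fun g => s (a.1 g)) x)
        rw [this, map_smul, Pi.smul_apply, map_smul] }
  have hδ : ∀ (c : Z1 ρC) (x : G × G), i ((δ c).1 x) = d1 ρB (fun g => s (c.1 g)) x := hδi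
  let δ' : Z1 ρC →ₗ[ZMod p] H2 ρA := (Submodule.mkQ _).comp δ
  have hδ' : ∀ c, δ' c = Submodule.Quotient.mk (δ c) := fun c => rfl
  let iZ : Z1 ρA →ₗ[ZMod p] Z1 ρB := Z1map i hiG
  let πZ : Z1 ρB →ₗ[ZMod p] Z1 ρC := Z1map π hπG
  let iH : H2 ρA →ₗ[ZMod p] H2 ρB := H2map i hiG
  let πH : H2 ρB →ₗ[ZMod p] H2 ρC := H2map π hπG
  -- exactness at Z¹(A)
  have e1 : Function.Injective iZ := by
    intro a b hab
    ext g
    apply hi
    have := congrArg (fun f : Z1 ρB => f.1 g) hab
    exact this
  -- exactness at Z¹(B)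
  have e2 : LinearMap.ker πZ = LinearMap.range iZ := by
    ext b
    constructor
    · intro hb
      have hb' : ∀ g, π (b.1 g) = 0 := fun g => congrArg (fun f : Z1 ρC => f.1 g) hb
      refine ⟨⟨fun g => t (b.1 g), b.2.1.comp t, fun g h => ?_⟩, ?_⟩
      · apply hi
        rw [map_add, hiG, hit _ (hb' _), hit _ (hb' _), hit _ (hb' _)]
        exact b.2.2 g h
      · ext g
        exact hit _ (hb' g)
    · rintro ⟨a, rfl⟩
      ext g
      exact hπi (a.1 g)
  -- exactness at Z¹(C)
  have e3 : LinearMap.ker δ' = LinearMap.range πZ := by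
    ext c
    constructor
    · intro hc
      have hc' : (Submodule.Quotient.mk (δ c) : H2 ρA) = 0 := hc
      rw [H2_mk_eq_zero] at hc'
      obtain ⟨a, ha, hac⟩ := hc'
      refine ⟨⟨fun g => s (c.1 g) - i (a g), (hsLC c).sub (ha.comp i), fun g h => ?_⟩, ?_⟩
      · have h1 := hδ c (g, h)
        rw [← hac, d1_map i hiG, d1_apply, d1_apply] at h1
        simp only [map_sub]
        have h2 : i (a (g * h)) = ρB g (i (a h)) + i (a g) - (ρB g (s (c.1 h)) -
            s (c.1 (g * h)) + s (c.1 g)) := by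
          rw [← h1]; abel
        rw [h2]; abel
      · ext g
        change π (s (c.1 g) - i (a g)) = c.1 g
        rw [map_sub, hs', hπi, sub_zero]
    · rintro ⟨b, rfl⟩
      change (Submodule.Quotient.mk (δ (πZ b)) : H2 ρA) = 0
      rw [H2_mk_eq_zero]
      have hk : ∀ g, π (s (π (b.1 g)) - b.1 g) = 0 := fun g => by
        rw [map_sub, hs', sub_self]
      refine ⟨fun g => t (s (π (b.1 g)) - b.1 g),
        ((b.2.1.comp (fun m => s (π m))).sub b.2.1).comp t, ?_⟩
      funext x
      apply hi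
      rw [hδ, d1_map i hiG]
      have : (fun g => i (t (s (π (b.1 g)) - b.1 g))) =
          (fun g => s ((πZ b).1 g)) - b.1 := by
        funext g
        rw [hit _ (hk g)]
        rfl
      rw [this, map_sub, Pi.sub_apply]
      have hb : d1 ρB b.1 x = 0 := by
        obtain ⟨g, h⟩ := x
        rw [d1_apply, b.2.2 g h]
        abel
      rw [hb, sub_zero]
  -- composition zero at H²(A)
  have e4 : LinearMap.range δ' ≤ LinearMap.ker iH := by
    rintro _ ⟨c, rfl⟩
    change H2map i hiG (Submodule.Quotient.mk (δ c)) = 0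
    rw [H2map_mk, H2_mk_eq_zero]
    refine ⟨fun g => s (c.1 g), hsLC c, ?_⟩
    funext x
    exact (hδ c x).symm
  -- exactness at H²(B)
  have e5 : LinearMap.ker πH ≤ LinearMap.range iH := by
    intro z hz
    obtain ⟨z, rfl⟩ := Submodule.Quotient.mk_surjective _ z
    have hz' : (Submodule.Quotient.mk (Z2map π hπG z) : H2 ρC) = 0 := hz
    rw [H2_mk_eq_zero] at hz'
    obtain ⟨c, hc, hcz⟩ := hz'
    have hsc : IsLocallyConstant (fun g => s (c g)) := hc.comp s
    have hk : ∀ x, π (z.1 x - d1 ρB (fun g => s (c g)) x) = 0 := fun x => by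
      rw [map_sub, d1_map π hπG]
      simp only [hs']
      have : d1 ρC c x = π (z.1 x) := by rw [hcz]; rfl
      change π (z.1 x) - d1 ρC c x = 0
      rw [this, sub_self]
    refine ⟨Submodule.Quotient.mk ⟨fun x => t (z.1 x - d1 ρB (fun g => s (c g)) x),
      (z.2.1.sub (isLC_act hρ hsc)).comp t, fun g h k => ?_⟩, ?_⟩
    · apply hi
      rw [map_sub, map_add, map_sub, hiG, hit _ (hk _), hit _ (hk _), hit _ (hk _),
        hit _ (hk _), map_zero, map_sub]
      have h1 := z.2.2 g h k
      have h2 := d1_cocycle ρB (fun g => s (c g)) g h k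
      calc _ = (ρB g (z.1 (h, k)) - z.1 (g * h, k) + z.1 (g, h * k) - z.1 (g, h)) -
          (ρB g (d1 ρB (fun g => s (c g)) (h, k)) - d1 ρB (fun g => s (c g)) (g * h, k) +
            d1 ρB (fun g => s (c g)) (g, h * k) - d1 ρB (fun g => s (c g)) (g, h)) := by abel
        _ = 0 := by rw [h1, h2, sub_zero]
    · change H2map i hiG (Submodule.Quotient.mk _) = Submodule.Quotient.mk z
      rw [H2map_mk, H2_mk_eq]
      refine ⟨fun g => - s (c g), hsc.neg, ?_⟩
      funext x
      have h3 : d1 ρB (fun g => - s (c g)) = - d1 ρB (fun g => s (c g)) := by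
        have : (fun g => - s (c g)) = -(fun g => s (c g)) := rfl
        rw [this, map_neg]
      rw [h3, Pi.neg_apply, Pi.sub_apply, Z2map_apply]
      change _ = i (t (z.1 x - d1 ρB (fun g => s (c g)) x)) - z.1 x
      rw [hit _ (hk x)]
      abel
  -- finiteness
  have f1 : Module.Finite (ZMod p) (Z1 ρB) := by
    have hk : Module.Finite (ZMod p) (LinearMap.ker πZ) := by
      rw [e2]; infer_instance
    have hq : Module.Finite (ZMod p) (Z1 ρB ⧸ LinearMap.ker πZ) :=
      Module.Finite.equiv (πZ.quotKerEquivRange).symm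
    exact Module.Finite.of_submodule_quotient (LinearMap.ker πZ)
  have f2 : Module.Finite (ZMod p) (H2 ρB) := by
    have hk : Module.Finite (ZMod p) (LinearMap.ker πH) := by
      have : Module.Finite (ZMod p) (LinearMap.range iH) := inferInstance
      exact Submodule.finiteDimensional_of_le e5
    have hq : Module.Finite (ZMod p) (H2 ρB ⧸ LinearMap.ker πH) :=
      Module.Finite.equiv (πH.quotKerEquivRange).symm
    exact Module.Finite.of_submodule_quotient (LinearMap.ker πH)
  refine ⟨f1, f2, finrank (ZMod p) (LinearMap.range δ'), Submodule.finrank_le _, ?_, ?_⟩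
  · have h1 := πZ.finrank_range_add_finrank_ker
    have h2 := δ'.finrank_range_add_finrank_ker
    have h3 : finrank (ZMod p) (LinearMap.ker πZ) = finrank (ZMod p) (Z1 ρA) := by
      rw [e2]
      exact LinearMap.finrank_range_of_inj e1
    rw [e3] at h2
    omega
  · have h1 := πH.finrank_range_add_finrank_ker
    have h2 := iH.finrank_range_add_finrank_ker
    have h3 : finrank (ZMod p) (LinearMap.ker πH) ≤ finrank (ZMod p) (LinearMap.range iH) :=
      Submodule.finrank_mono e5
    have h4 : finrank (ZMod p) (LinearMap.range δ') ≤ finrank (ZMod p) (LinearMap.ker iH) :=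
      Submodule.finrank_mono e4
    have h5 : finrank (ZMod p) (LinearMap.range πH) ≤ finrank (ZMod p) (H2 ρC) :=
      Submodule.finrank_le _
    omega

end les

end Pool.Agent.H31.GS
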