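import Pool.Agent.H31.GS.Growth

/-!
# Polynomial functions and the augmentation filtration of finite quotients
-/

set_option autoImplicit false
set_option linter.unusedSectionVars false

namespace Pool.Agent.H31.GS

open Module

section alg

variable {p : ℕ} [Fact p.Prime] {Q : Type*} [Group Q]

/-- Polynomial functions of degree `< n` on an abstract group. -/
def PA (p : ℕ) (Q : Type*) [Group Q] : ℕ → Submodule (ZMod p) (Q → ZMod p)
  | 0 => ⊥
  | n + 1 =>
    { carrier := {f | ∀ g, rt p Q g f - f ∈ PA p Q n}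
      add_mem' := fun {a b} ha hb => fun g => by
        have h : rt p Q g (a + b) - (a + b) = (rt p Q g a - a) + (rt p Q g b - b) := by
          rw [map_add]; abel
        rw [h]
        exact (PA p Q n).add_mem (ha g) (hb g)
      zero_mem' := fun g => by
        rw [map_zero, sub_zero]; exact (PA p Q n).zero_mem
      smul_mem' := fun c x hx => fun g => by
        rw [map_smul, ← smul_sub]
        exact (PA p Q n).smul_mem c (hx g) }

theorem mem_PA_succ {n : ℕ} {f : Q → ZMod p} :
    f ∈ PA p Q (n + 1) ↔ ∀ g, rt p Q g f - f ∈ PA p Q n := Iff.rfl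

/-- The action of the group algebra on functions. -/
noncomputable abbrev act (p : ℕ) (Q : Type*) [Group Q] :
    MonoidAlgebra (ZMod p) Q →ₐ[ZMod p] Module.End (ZMod p) (Q → ZMod p) :=
  (rt p Q).asAlgebraHom

theorem act_of (q : Q) : act p Q (MonoidAlgebra.of (ZMod p) Q q) = rt p Q q := by
  simp [act]

/-- `I ≤ span {of q - 1}` -/
noncomputable def Iaug (p : ℕ) (Q : Type*) [Group Q] : Submodule (ZMod p) (MonoidAlgebra (ZMod p) Q) :=
  Submodule.span (ZMod p) {b | ∃ q : Q, b = MonoidAlgebra.of (ZMod p) Q q - 1}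

theorem act_Iaug {n : ℕ} {f : Q → ZMod p} (hf : f ∈ PA p Q (n + 1))
    {b : MonoidAlgebra (ZMod p) Q} (hb : b ∈ Iaug p Q) : act p Q b f ∈ PA p Q n := by
  induction hb using Submodule.span_induction with
  | mem b hb =>
    obtain ⟨q, rfl⟩ := hb
    rw [map_sub, act_of, map_one]
    exact hf q
  | zero => rw [map_zero]; exact (PA p Q n).zero_mem
  | add a b _ _ ha hb =>
    rw [map_add]
    exact (PA p Q n).add_mem ha hb
  | smul c a _ ha =>
    rw [map_smul]
    exact (PA p Q n).smul_mem c ha

/-- `J` kills polynomial functions of degree `< n` -/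
def Kills (n : ℕ) (J : Submodule (ZMod p) (MonoidAlgebra (ZMod p) Q)) : Prop :=
  ∀ a ∈ J, ∀ f ∈ PA p Q n, act p Q a f = 0

theorem Kills_zero (J : Submodule (ZMod p) (MonoidAlgebra (ZMod p) Q)) : Kills 0 J := by
  intro a _ f hf
  have : f = 0 := hf
  rw [this, map_zero]

theorem Kills_succ {n : ℕ} {J J1 J' : Submodule (ZMod p) (MonoidAlgebra (ZMod p) Q)}
    (hJ : Kills n J) (h1 : J1 ≤ Iaug p Q) (h : J' ≤ J * J1) : Kills (n + 1) J' := by
  let K : Submodule (ZMod p) (MonoidAlgebra (ZMod p) Q) :=
    { carrier := {a | ∀ f ∈ PA p Q (n + 1), act p Q a f = 0}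
      add_mem' := fun {a b} ha hb f hf => by
        rw [map_add, LinearMap.add_apply, ha f hf, hb f hf, add_zero]
      zero_mem' := fun f _ => by rw [map_zero, LinearMap.zero_apply]
      smul_mem' := fun c a ha f hf => by
        rw [map_smul, LinearMap.smul_apply, ha f hf, smul_zero] }
  have hK : J * J1 ≤ K := by
    rw [Submodule.mul_le]
    intro a ha b hb f hf
    rw [map_mul]
    exact hJ a ha _ (act_Iaug hf (h1 hb))
  intro a ha f hf
  exact hK (h ha) f hf

theorem Kills_pow {I : Submodule (ZMod p) (MonoidAlgebra (ZMod p) Q)} (hI : I ≤ Iaug p Q)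
    (n : ℕ) : Kills n ((⊤ : Submodule (ZMod p) (MonoidAlgebra (ZMod p) Q)) * I ^ n) := by
  induction n with
  | zero => exact Kills_zero _
  | succ n ih =>
    exact Kills_succ ih hI (by rw [pow_succ, mul_assoc])

/-- The pairing of functions and the group algebra. -/
noncomputable def pair (p : ℕ) [Fact p.Prime] (Q : Type*) [Group Q] :
    (Q → ZMod p) →ₗ[ZMod p] Module.Dual (ZMod p) (MonoidAlgebra (ZMod p) Q) where
  toFun f :=
    { toFun := fun a => act p Q a f 1
      map_add' := fun a b => by rw [map_add, LinearMap.add_apply, Pi.add_apply]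
      map_smul' := fun c a => by
        rw [map_smul, LinearMap.smul_apply, Pi.smul_apply, RingHom.id_apply] }
  map_add' f f' := by
    ext a
    simp
  map_smul' c f := by
    ext a
    simp

theorem pair_of (f : Q → ZMod p) (q : Q) : pair p Q f (MonoidAlgebra.of (ZMod p) Q q) = f q := by
  change act p Q (MonoidAlgebra.of (ZMod p) Q q) f 1 = f q
  rw [act_of]
  change f (1 * q) = f q
  rw [one_mul]

theorem pair_injective : Function.Injective (pair p Q) := by
  intro f f' h
  funext q
  rw [← pair_of f q, ← pair_of f' q, h]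

end alg

section top

variable {p : ℕ} [Fact p.Prime] {G : Type*} [Group G] [TopologicalSpace G]

/-- descent of functions to `G / N` -/
noncomputable def desc (p : ℕ) {G : Type*} [Group G] (N : Subgroup G) :
    (G → ZMod p) →ₗ[ZMod p] (G ⧸ N → ZMod p) :=
  LinearMap.funLeft (ZMod p) (ZMod p) Quotient.out

theorem desc_mk {N : Subgroup G} {f : G → ZMod p} (hf : ∀ x, ∀ h ∈ N, f (x * h) = f x) (x : G) :
    desc p N f (x : G ⧸ N) = f x := by
  obtain ⟨h, hh⟩ := QuotientGroup.mk_out_eq_mul N x
  change f (Quotient.out (x : G ⧸ N)) = f x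
  rw [hh]
  exact hf x h h.2

theorem P_mono {a b : ℕ} (h : a ≤ b) : P p G a ≤ P p G b := by
  induction b, h using Nat.le_induction with
  | base => exact le_rfl
  | succ n _ ih => exact ih.trans (P_mono_succ n)

theorem desc_mem {n : ℕ} {N : Subgroup G} [N.Normal]
    (hN : ∀ f ∈ P p G n, ∀ x, ∀ h ∈ N, f (x * h) = f x) {k : ℕ} (hk : k ≤ n)
    {f : G → ZMod p} (hf : f ∈ P p G k) : desc p N f ∈ PA p (G ⧸ N) k := by
  induction k generalizing f with
  | zero =>
    have : f = 0 := hf
    rw [this, map_zero]
    exact (PA p (G ⧸ N) 0).zero_mem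
  | succ k ih =>
    intro q
    have h1 : rt p (G ⧸ N) q (desc p N f) - desc p N f =
        desc p N (rt p G q.out f - f) := by
      funext y
      obtain ⟨x, rfl⟩ := QuotientGroup.mk_surjective y
      have h2 : rt p G q.out f - f ∈ P p G k := hf.2 _
      rw [desc_mk (hN _ (P_mono (by omega) h2))]
      have h3 : ((x * q.out : G) : G ⧸ N) = (x : G ⧸ N) * q := by
        rw [QuotientGroup.mk_mul]
        congr 1
        exact Quotient.out_eq' q
      change desc p N f ((x : G ⧸ N) * q) - desc p N f x = f (x * q.out) - f x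
      rw [← h3, desc_mk (hN f (P_mono hk hf)), desc_mk (hN f (P_mono hk hf))]
    rw [h1]
    exact ih (by omega) (hf.2 _)

variable [IsTopologicalGroup G] [CompactSpace G] [TotallyDisconnectedSpace G]

/-- The dimension of the space of polynomial functions is at most the codimension of the
augmentation filtration in the group algebra of every sufficiently large finite quotient. -/
theorem finrank_P_le (n : ℕ) [Module.Finite (ZMod p) (P p G n)] :
    ∃ N₀ : OpenNormalSubgroup G, ∀ (N : Subgroup G) [N.Normal], N ≤ N₀.toSubgroup →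
      IsOpen (N : Set G) → ∀ J : Submodule (ZMod p) (MonoidAlgebra (ZMod p) (G ⧸ N)),
        Kills n J → finrank (ZMod p) (P p G n) ≤
          finrank (ZMod p) (MonoidAlgebra (ZMod p) (G ⧸ N) ⧸ J) := by
  classical
  have hfin : Finite (P p G n) := Module.finite_of_finite (ZMod p)
  have h1 : ∀ᶠ g in nhds (1 : G), ∀ f : P p G n, rt p G g f.1 = rt p G 1 f.1 :=
    Filter.eventually_all.2 fun f => rt_eventually (P_LC f.2) 1
  rw [eventually_nhds_iff] at h1
  obtain ⟨U, hU, hUo, h1U⟩ := h1
  obtain ⟨N₀, hN₀⟩ := ProfiniteGrp.exist_openNormalSubgroup_sub_open_nhds_of_one hUo h1U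
  refine ⟨N₀, fun N _ hle hopen J hJ => ?_⟩
  have hN : ∀ f ∈ P p G n, ∀ x, ∀ h ∈ N, f (x * h) = f x := by
    intro f hf x h hh
    have h2 := hU h (hN₀ (hle hh)) ⟨f, hf⟩
    have h3 := congrFun h2 x
    change f (x * h) = f (x * 1) at h3
    rw [h3, mul_one]
  have hfi : Finite (G ⧸ N) := Subgroup.quotient_finite_of_isOpen N hopen
  have hfd : FiniteDimensional (ZMod p) (MonoidAlgebra (ZMod p) (G ⧸ N)) := inferInstance
  let Φ : P p G n →ₗ[ZMod p] J.dualAnnihilator :=
    LinearMap.codRestrict _ (((pair p (G ⧸ N)).comp (desc p N)).comp (P p G n).subtype) (by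
      intro f
      rw [Submodule.mem_dualAnnihilator]
      intro a ha
      have h2 := hJ a ha (desc p N f.1) (desc_mem hN le_rfl f.2)
      exact congrFun h2 1)
  have hinj : Function.Injective Φ := by
    intro f f' h
    have h2 : pair p (G ⧸ N) (desc p N f.1) = pair p (G ⧸ N) (desc p N f'.1) :=
      congrArg Subtype.val h
    have h3 := pair_injective h2
    ext x
    have h4 := congrFun h3 (x : G ⧸ N)
    rw [desc_mk (hN _ f.2), desc_mk (hN _ f'.2)] at h4
    exact h4
  have h5 := LinearMap.finrank_le_finrank_of_injective hinj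
  have h6 := Subspace.finrank_add_finrank_dualAnnihilator_eq J
  have h7 := J.finrank_quotient_add_finrank
  omega

end top

end Pool.Agent.H31.GS
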