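import Mathlib

/-!
# Free pro-`p` groups of rank two inside profinite groups
-/

set_option autoImplicit false

namespace Pool.Agent.H31.GS

/-- The group `H` is a free pro-`p` group on the two elements `x`, `y`: they generate a dense
subgroup, and for every finite `p`-group `Q` and all `a, b` in `Q` there is a continuous
homomorphism `H → Q` with `x ↦ a`, `y ↦ b`. -/
structure IsFreeProP2 (p : ℕ) (H : Type*) [Group H] [TopologicalSpace H] (x y : H) : Prop where
  gen : closure ((Subgroup.closure {x, y} : Subgroup H) : Set H) = Set.univ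
  univ : ∀ (Q : Type) [Group Q] [Finite Q], IsPGroup p Q → ∀ a b : Q,
    ∃ φ : H →* Q, IsOpen (φ.ker : Set H) ∧ φ x = a ∧ φ y = b

/-- evaluation of words at a pair -/
def evw {G : Type*} [Group G] (x y : G) : FreeGroup Bool →* G :=
  FreeGroup.lift (fun b => if b then x else y)

theorem evw_range {G : Type*} [Group G] (x y : G) :
    (evw x y).range = Subgroup.closure {x, y} := by
  rw [evw, FreeGroup.range_lift_eq_closure]
  congr 1
  ext z
  simp only [Set.mem_range, Bool.exists_bool, Set.mem_insert_iff, Set.mem_singleton_iff]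
  simp only [Bool.false_eq_true, if_false, if_true]
  constructor
  · rintro (h | h)
    · exact Or.inr h.symm
    · exact Or.inl h.symm
  · rintro (h | h)
    · exact Or.inr h.symm
    · exact Or.inl h.symm

theorem free_of_criterion {p : ℕ} {G : Type*} [Group G] [TopologicalSpace G]
    [IsTopologicalGroup G] (x y : G)
    (crit : ∀ (Q : Type) [Group Q] [Finite Q], IsPGroup p Q → ∀ a b : Q,
      ∃ N : Subgroup G, N.Normal ∧ IsOpen (N : Set G) ∧
        ∀ w : FreeGroup Bool, evw x y w ∈ N → evw a b w = 1) :
    ∃ (H : Subgroup G) (hx : x ∈ H) (hy : y ∈ H), IsClosed (H : Set G) ∧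
      IsFreeProP2 p H ⟨x, hx⟩ ⟨y, hy⟩ := by
  classical
  set K : Subgroup G := Subgroup.closure {x, y} with hK
  have hxK : x ∈ K := Subgroup.subset_closure (by simp)
  have hyK : y ∈ K := Subgroup.subset_closure (by simp)
  refine ⟨K.topologicalClosure, K.le_topologicalClosure hxK, K.le_topologicalClosure hyK,
    K.isClosed_topologicalClosure, ?_, ?_⟩
  · -- density
    rw [Set.eq_univ_iff_forall]
    rintro ⟨z, hz⟩
    rw [mem_closure_iff_nhds]
    intro t ht
    rw [nhds_subtype_eq_comap, Filter.mem_comap] at ht
    obtain ⟨u, hu, hut⟩ := ht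
    have hz' : z ∈ closure (K : Set G) := hz
    rw [mem_closure_iff_nhds] at hz'
    obtain ⟨k, hku, hkK⟩ := hz' u hu
    refine ⟨⟨k, K.le_topologicalClosure hkK⟩, hut hku, ?_⟩
    rw [SetLike.mem_coe]
    have h1 : Subgroup.closure {(⟨x, K.le_topologicalClosure hxK⟩ : K.topologicalClosure),
        ⟨y, K.le_topologicalClosure hyK⟩} = K.subgroupOf K.topologicalClosure := by
      apply Subgroup.map_injective (K.topologicalClosure.subtype_injective)
      rw [MonoidHom.map_closure, Subgroup.map_subgroupOf_eq_of_le K.le_topologicalClosure]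
      have h2 : ((K.topologicalClosure).subtype ''
          {(⟨x, K.le_topologicalClosure hxK⟩ : K.topologicalClosure),
            ⟨y, K.le_topologicalClosure hyK⟩}) = ({x, y} : Set G) := by
        rw [Set.image_pair]
        rfl
      rw [h2]
    rw [h1]
    exact hkK
  · intro Q _ _ hQ a b
    obtain ⟨N, hNn, hNo, hN⟩ := crit Q hQ a b
    have hex : ∀ h : K.topologicalClosure, ∃ w : FreeGroup Bool, (h : G)⁻¹ * evw x y w ∈ N := by
      intro h
      have hz' : (h : G) ∈ closure (K : Set G) := h.2
      rw [mem_closure_iff_nhds] at hz'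
      have hU : {g : G | (h : G)⁻¹ * g ∈ N} ∈ nhds (h : G) := by
        have ho : IsOpen {g : G | (h : G)⁻¹ * g ∈ N} := hNo.preimage (continuous_const_mul _)
        apply ho.mem_nhds
        change (h : G)⁻¹ * (h : G) ∈ N
        rw [inv_mul_cancel]
        exact N.one_mem
      obtain ⟨k, hk, hkK⟩ := hz' _ hU
      have hk2 : k ∈ (evw x y).range := by
        rw [evw_range]; exact hkK
      obtain ⟨w, rfl⟩ := hk2
      exact ⟨w, hk⟩
    choose W hW using hex
    have huniq : ∀ (h : G) (w w' : FreeGroup Bool), h⁻¹ * evw x y w ∈ N →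
        h⁻¹ * evw x y w' ∈ N → evw a b w = evw a b w' := by
      intro h w w' h1 h2
      have h3 : evw x y (w⁻¹ * w') ∈ N := by
        have : evw x y (w⁻¹ * w') = (h⁻¹ * evw x y w)⁻¹ * (h⁻¹ * evw x y w') := by
          rw [map_mul, map_inv]; group
        rw [this]
        exact N.mul_mem (N.inv_mem h1) h2
      have h4 := hN _ h3
      rw [map_mul, map_inv] at h4
      exact (inv_mul_eq_one.1 h4)
    let φ : K.topologicalClosure →* Q := MonoidHom.mk' (fun h => evw a b (W h)) (by
      intro h h'
      rw [← map_mul]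
      refine huniq ((h * h' : K.topologicalClosure) : G) _ _ (hW _) ?_
      have h1 := hW h
      have h2 := hW h'
      have h3 : ((h * h' : K.topologicalClosure) : G)⁻¹ * evw x y (W h * W h') =
          ((h' : G)⁻¹ * ((h : G)⁻¹ * evw x y (W h)) * (h' : G)) *
            ((h' : G)⁻¹ * evw x y (W h')) := by
        rw [map_mul, Subgroup.coe_mul]; group
      rw [h3]
      refine N.mul_mem ?_ h2
      have h4 := hNn.conj_mem _ h1 (h' : G)⁻¹
      rwa [inv_inv] at h4)
    have hφ : ∀ (h : K.topologicalClosure) (w : FreeGroup Bool),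
        (h : G)⁻¹ * evw x y w ∈ N → φ h = evw a b w :=
      fun h w hw => huniq (h : G) _ _ (hW h) hw
    refine ⟨φ, ?_, ?_, ?_⟩
    · apply Subgroup.isOpen_of_mem_nhds (g := 1)
      have ho : IsOpen {g : K.topologicalClosure | (g : G) ∈ N} :=
        hNo.preimage continuous_subtype_val
      refine Filter.mem_of_superset (ho.mem_nhds (by
        change ((1 : K.topologicalClosure) : G) ∈ N
        exact N.one_mem)) ?_
      intro g hg
      change φ g = 1
      rw [hφ g 1 (by
        rw [map_one, mul_one]
        exact N.inv_mem hg), map_one]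
    · have h1 : evw x y (FreeGroup.of true) = x := by simp [evw]
      rw [hφ _ (FreeGroup.of true) (by
        rw [h1]
        change x⁻¹ * x ∈ N
        rw [inv_mul_cancel]; exact N.one_mem)]
      simp [evw]
    · have h1 : evw x y (FreeGroup.of false) = y := by simp [evw]
      rw [hφ _ (FreeGroup.of false) (by
        rw [h1]
        change y⁻¹ * y ∈ N
        rw [inv_mul_cancel]; exact N.one_mem)]
      simp [evw]

end Pool.Agent.H31.GS
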