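import Pool.Agent.H31.GS.Coh

/-!
# The Golod-Shafarevich inequality for modules over a pro-`p` group

For a pro-`p` group with `d = dim H¹(G, F_p)`, `r = dim H²(G, F_p)` finite and a finite module
`M` with a submodule `A` such that `G` acts trivially on `M / A`:
`d dim M ≤ dim Z¹(G, M) + r dim A`.
-/

set_option autoImplicit false
set_option linter.unusedSectionVars false

namespace Pool.Agent.H31.GS

open Module

variable {p : ℕ} [Fact p.Prime] {G : Type*} [Group G] [TopologicalSpace G]

/-- `G` has only open normal subgroups of `p`-power index. -/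
def PIndex (p : ℕ) (G : Type*) [Group G] [TopologicalSpace G] : Prop :=
  ∀ N : Subgroup G, N.Normal → IsOpen (N : Set G) → ∃ k : ℕ, N.index = p ^ k

/-- The trivial module `ZMod p`. -/
abbrev triv (p : ℕ) (G : Type*) [Group G] : Representation (ZMod p) G (ZMod p) :=
  Representation.trivial (ZMod p) G (ZMod p)

theorem exists_fixed (hG : PIndex p G) {M : Type*} [AddCommGroup M] [Module (ZMod p) M]
    [Module.Finite (ZMod p) M] [Nontrivial M] (ρ : Representation (ZMod p) G M)
    (hρ : IsLocallyConstant (fun g => ρ g)) : ∃ v : M, v ≠ 0 ∧ ∀ g, ρ g v = v := by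
  classical
  have hfin : Finite M := Module.finite_of_finite (ZMod p)
  let N : Subgroup G := MonoidHom.ker ρ.toHomUnits
  have hN : ∀ g, g ∈ N ↔ ρ g = 1 := by
    intro g
    rw [MonoidHom.mem_ker]
    constructor
    · intro h
      have := congrArg Units.val h
      exact this
    · intro h
      ext1
      exact h
  have hopen : IsOpen (N : Set G) := by
    have h1 := hρ.isOpen_fiber 1
    have h2 : (N : Set G) = {x | ρ x = 1} := by
      ext g; exact hN g
    rw [h2]; exact h1
  obtain ⟨k, hk⟩ := hG N inferInstance hopen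
  let H : Subgroup (Module.End (ZMod p) M)ˣ := ρ.toHomUnits.range
  have hH : IsPGroup p H := by
    apply IsPGroup.of_card (n := k)
    rw [← hk]
    exact (Nat.card_congr (QuotientGroup.quotientKerEquivRange ρ.toHomUnits).toEquiv).symm
  have hcard : p ∣ Nat.card M := by
    have h1 : Nat.card M = p ^ finrank (ZMod p) M := by
      rw [Module.natCard_eq_pow_finrank (K := ZMod p), Nat.card_zmod]
    rw [h1]
    exact dvd_pow_self _ (Module.finrank_pos (R := ZMod p) (M := M)).ne'
  obtain ⟨b, hb, hb0⟩ := hH.exists_fixed_point_of_prime_dvd_card_of_fixed_point M hcard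
    (a := (0 : M)) (by
      intro h
      exact smul_zero h)
  refine ⟨b, hb0.symm, fun g => ?_⟩
  exact hb ⟨ρ.toHomUnits g, ⟨g, rfl⟩⟩

theorem isLC_of_surj {M C : Type*} [AddCommGroup M] [Module (ZMod p) M] [AddCommGroup C]
    [Module (ZMod p) C] {ρ : Representation (ZMod p) G M} {σ : Representation (ZMod p) G C}
    (hρ : IsLocallyConstant (fun g => ρ g)) (π : M →ₗ[ZMod p] C) (hπ : Function.Surjective π)
    (hπG : ∀ g b, π (ρ g b) = σ g (π b)) : IsLocallyConstant (fun g => σ g) := by
  rw [IsLocallyConstant.iff_exists_open] at hρ ⊢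
  intro x
  obtain ⟨U, hU, hx, h⟩ := hρ x
  refine ⟨U, hU, hx, fun y hy => ?_⟩
  ext c
  obtain ⟨b, rfl⟩ := hπ c
  rw [← hπG, ← hπG, h y hy]

theorem isLC_of_inj {M A : Type*} [AddCommGroup M] [Module (ZMod p) M] [AddCommGroup A]
    [Module (ZMod p) A] {ρ : Representation (ZMod p) G M} {σ : Representation (ZMod p) G A}
    (hρ : IsLocallyConstant (fun g => ρ g)) (i : A →ₗ[ZMod p] M) (hi : Function.Injective i)
    (hiG : ∀ g b, i (σ g b) = ρ g (i b)) : IsLocallyConstant (fun g => σ g) := by
  rw [IsLocallyConstant.iff_exists_open] at hρ ⊢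
  intro x
  obtain ⟨U, hU, hx, h⟩ := hρ x
  refine ⟨U, hU, hx, fun y hy => ?_⟩
  ext c
  apply hi
  rw [hiG, hiG, h y hy]

section zero

variable {M : Type*} [AddCommGroup M] [Module (ZMod p) M] [Subsingleton M]

theorem Z1_subsingleton (ρ : Representation (ZMod p) G M) : Subsingleton (Z1 ρ) :=
  ⟨fun a b => by ext g; exact Subsingleton.elim _ _⟩

theorem H2_subsingleton (ρ : Representation (ZMod p) G M) : Subsingleton (H2 ρ) := by
  have : Subsingleton (Z2 ρ) := ⟨fun a b => by ext g; exact Subsingleton.elim _ _⟩
  exact (Submodule.mkQ_surjective _).subsingleton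

end zero

/-- Finiteness and the partial Euler characteristic inequality. -/
theorem euler [IsTopologicalGroup G] (hG : PIndex p G)
    [Module.Finite (ZMod p) (Z1 (triv p G))] [Module.Finite (ZMod p) (H2 (triv p G))] :
    ∀ (n : ℕ) {M : Type*} [AddCommGroup M] [Module (ZMod p) M]
    [Module.Finite (ZMod p) M] (ρ : Representation (ZMod p) G M)
    (_ : IsLocallyConstant (fun g => ρ g)), finrank (ZMod p) M = n →
    Module.Finite (ZMod p) (Z1 ρ) ∧ Module.Finite (ZMod p) (H2 ρ) ∧
    finrank (ZMod p) (H2 ρ) + finrank (ZMod p) (Z1 (triv p G)) * finrank (ZMod p) M ≤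
      finrank (ZMod p) (Z1 ρ) + finrank (ZMod p) (H2 (triv p G)) * finrank (ZMod p) M := by
  intro n
  induction n with
  | zero =>
    intro M _ _ _ ρ hρ hn
    have hM : Subsingleton M := (Module.finrank_eq_zero_iff_of_free (ZMod p) M).1 hn
    have h1 := Z1_subsingleton ρ
    have h2 := H2_subsingleton ρ
    refine ⟨inferInstance, inferInstance, ?_⟩
    rw [hn, Module.finrank_zero_of_subsingleton]
    simp
  | succ n ih =>
    intro M _ _ _ ρ hρ hn
    have hnt : Nontrivial M := Module.nontrivial_of_finrank_pos (R := ZMod p) (by omega)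
    obtain ⟨v, hv0, hv⟩ := exists_fixed hG ρ hρ
    let W : Submodule (ZMod p) M := Submodule.span (ZMod p) {v}
    have hW : ∀ g, W ≤ W.comap (ρ g) := by
      intro g
      rw [Submodule.span_le]
      intro x hx
      rw [Set.mem_singleton_iff] at hx
      subst hx
      change ρ g x ∈ W
      rw [hv g]
      exact Submodule.mem_span_singleton_self x
    let σ := ρ.quotient W hW
    let i : ZMod p →ₗ[ZMod p] M := LinearMap.toSpanSingleton (ZMod p) M v
    let π : M →ₗ[ZMod p] (M ⧸ W) := W.mkQ
    have hi : Function.Injective i := by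
      rw [← LinearMap.ker_eq_bot]
      exact LinearMap.ker_toSpanSingleton (ZMod p) hv0
    have hπ : Function.Surjective π := Submodule.mkQ_surjective _
    have hex : LinearMap.ker π = LinearMap.range i := by
      rw [Submodule.ker_mkQ, LinearMap.range_toSpanSingleton]
    have hiG : ∀ g a, i (triv p G g a) = ρ g (i a) := by
      intro g a
      simp [i, hv g]
    have hπG : ∀ g b, π (ρ g b) = σ g (π b) := fun g b => rfl
    have hσ : IsLocallyConstant (fun g => σ g) := isLC_of_surj hρ π hπ hπG
    have hdim : finrank (ZMod p) (M ⧸ W) + 1 = finrank (ZMod p) M := by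
      have h1 := W.finrank_quotient_add_finrank
      rw [finrank_span_singleton hv0] at h1
      exact h1
    obtain ⟨f1, f2, f3⟩ := ih σ hσ (by omega)
    obtain ⟨g1, g2, k, g3, g4, g5⟩ := les hρ i π hi hπ hex hiG hπG
    refine ⟨g1, g2, ?_⟩
    rw [← hdim, mul_add, mul_add]
    omega

/-- `Z¹` of a trivial module. -/
theorem Z1_trivial [Module.Finite (ZMod p) (Z1 (triv p G))]
    {C : Type*} [AddCommGroup C] [Module (ZMod p) C]
    [Module.Finite (ZMod p) C] (σ : Representation (ZMod p) G C) (hσ : ∀ g c, σ g c = c)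
    [Module.Finite (ZMod p) (Z1 σ)] :
    finrank (ZMod p) (Z1 (triv p G)) * finrank (ZMod p) C ≤ finrank (ZMod p) (Z1 σ) := by
  classical
  let b := Module.finBasis (ZMod p) C
  let Φ : (Fin (finrank (ZMod p) C) → Z1 (triv p G)) →ₗ[ZMod p] Z1 σ :=
    { toFun := fun f => ⟨fun g => b.equivFun.symm (fun j => (f j).1 g), by
        have h : IsLocallyConstant (fun g => fun j => (f j).1 g) := by
          rw [IsLocallyConstant.iff_eventually_eq]
          intro x
          have : ∀ j, ∀ᶠ y in nhds x, (f j).1 y = (f j).1 x := fun j =>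
            (f j).2.1.eventually_eq x
          have h2 := Filter.eventually_all.2 this
          filter_upwards [h2] with y hy
          funext j
          exact hy j
        refine ⟨h.comp (fun m => b.equivFun.symm m), fun g h => ?_⟩
        rw [hσ, ← map_add]
        change b.equivFun.symm (fun j => (f j).1 (g * h)) = _
        congr 1
        funext j
        have := (f j).2.2 g h
        simpa using this⟩
      map_add' := fun f f' => by
        ext g
        change b.equivFun.symm (fun j => (f j).1 g + (f' j).1 g) = _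
        rw [show (fun j => (f j).1 g + (f' j).1 g) = (fun j => (f j).1 g) +
          (fun j => (f' j).1 g) from rfl, map_add]
        rfl
      map_smul' := fun c f => by
        ext g
        change b.equivFun.symm (fun j => c • (f j).1 g) = _
        rw [show (fun j => c • (f j).1 g) = c • (fun j => (f j).1 g) from rfl, map_smul]
        rfl }
  have hinj : Function.Injective Φ := by
    intro f f' h
    funext j
    ext g
    have h1 := congrArg (fun q : Z1 σ => q.1 g) h
    have h2 := b.equivFun.symm.injective h1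
    exact congrFun h2 j
  have := LinearMap.finrank_le_finrank_of_injective hinj
  rw [Module.finrank_pi_fintype] at this
  simp only [Finset.sum_const, Finset.card_univ, Fintype.card_fin, smul_eq_mul] at this
  rw [mul_comm]
  exact this

/-- The Golod-Shafarevich inequality. -/
theorem gs_module [IsTopologicalGroup G] (hG : PIndex p G)
    [Module.Finite (ZMod p) (Z1 (triv p G))] [Module.Finite (ZMod p) (H2 (triv p G))]
    {M : Type*} [AddCommGroup M] [Module (ZMod p) M]
    [Module.Finite (ZMod p) M] (ρ : Representation (ZMod p) G M)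
    (hρ : IsLocallyConstant (fun g => ρ g)) (W : Submodule (ZMod p) M)
    (hW : ∀ g m, ρ g m - m ∈ W) :
    Module.Finite (ZMod p) (Z1 ρ) ∧
    finrank (ZMod p) (Z1 (triv p G)) * finrank (ZMod p) M ≤
      finrank (ZMod p) (Z1 ρ) + finrank (ZMod p) (H2 (triv p G)) * finrank (ZMod p) W := by
  have hW' : ∀ g, W ≤ W.comap (ρ g) := by
    intro g m hm
    change ρ g m ∈ W
    have := W.add_mem (hW g m) hm
    simpa using this
  let σ := ρ.quotient W hW'
  let τ := ρ.subrepresentation W hW'
  let i : W →ₗ[ZMod p] M := W.subtype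
  let π : M →ₗ[ZMod p] (M ⧸ W) := W.mkQ
  have hi : Function.Injective i := Subtype.val_injective
  have hπ : Function.Surjective π := Submodule.mkQ_surjective _
  have hex : LinearMap.ker π = LinearMap.range i := by
    rw [Submodule.ker_mkQ, Submodule.range_subtype]
  have hiG : ∀ g a, i (τ g a) = ρ g (i a) := fun g a => rfl
  have hπG : ∀ g b, π (ρ g b) = σ g (π b) := fun g b => rfl
  have hσ : IsLocallyConstant (fun g => σ g) := isLC_of_surj hρ π hπ hπG
  have hτ : IsLocallyConstant (fun g => τ g) := isLC_of_inj hρ i hi hiG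
  have hdim := W.finrank_quotient_add_finrank
  obtain ⟨f1, f2, f3⟩ := euler hG _ σ hσ rfl
  obtain ⟨e1, e2, e3⟩ := euler hG _ τ hτ rfl
  obtain ⟨g1, g2, k, g3, g4, g5⟩ := les hρ i π hi hπ hex hiG hπG
  have hZ := Z1_trivial (p := p) σ (fun g c => by
    obtain ⟨m, rfl⟩ := hπ c
    rw [← hπG, ← sub_eq_zero, ← map_sub]
    exact (Submodule.Quotient.mk_eq_zero W).2 (hW g m))
  refine ⟨g1, ?_⟩
  rw [← hdim, mul_add]
  omega

end Pool.Agent.H31.GS
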